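import Mathlib
import Pool.Agent.X198.ThreeGH

set_option autoImplicit false

namespace Pool.Agent.Results.MP_975509_gt.NoCommonSpace

universe u

open Set Metric GromovHausdorff Pool.Agent.X198.ThreeGH

/-- **Three Gromov–Hausdorff distances cannot always be realised simultaneously.** There are three
nonempty compact metric spaces such that for every metric space `Z` and all isometric embeddings
`φ i : X i → Z`, some pair of images has Hausdorff distance strictly larger than the
Gromov–Hausdorff distance. -/
theorem _root_.Pool.Agent.Results.MP_975509_gt.NoCommonSpace.result :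
    ∃ (X : Fin 3 → Type) (_ : ∀ i, MetricSpace (X i)) (_ : ∀ i, CompactSpace (X i))
      (_ : ∀ i, Nonempty (X i)), ∀ (Z : Type u) [MetricSpace Z] (φ : ∀ i, X i → Z),
        (∀ i, Isometry (φ i)) →
          ∃ i j, i ≠ j ∧ ghDist (X i) (X j) < hausdorffDist (range (φ i)) (range (φ j)) := by
  refine ⟨X, inferInstance, inferInstance, inferInstance, ?_⟩
  intro Z _ φ hφ
  by_contra hcon
  push Not at hcon
  refine no_space φ hφ fun i j hij => (hcon i j hij).trans ?_
  have h := ghDist_le_of_approx_subsets (X := X i) (Y := X j) (s := univ) (fun x => mtX i j x.1)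
    (ε₁ := 0) (ε₂ := 1) (ε₃ := 0) (fun x => ⟨x, mem_univ _, by simp⟩)
    (fun y => by
      obtain ⟨x, hx⟩ := mtX_surj i j y
      exact ⟨⟨x, mem_univ _⟩, by rw [hx]; simp⟩)
    (fun x y => mtX_close i j x.1 y.1)
  linarith

end Pool.Agent.Results.MP_975509_gt.NoCommonSpace
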